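import Pool.Agent.H93.TR.Fold
import Pool.Agent.H93.TR.Pot

/-!
# The quotient of a tree by a normal subgroup generated by elements with fixed points

Module H64 QT QUOT (MP_2a547c_gt, THEOREM GN). Let `G` act on a tree, `N` a normal subgroup without inversions which is
generated by elements with fixed vertices. Then `N` folds (`folds_self`), and the quotient `qg X N` is a tree on which `G ⧸ N` acts.
-/

set_option autoImplicit false

namespace Pool.Agent.H64.QT

open Pool.Agent.H93.TR

variable {G V : Type} [Group G] [MulAction G V] {X : SimpleGraph V}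

/-- `N` is generated by elements which fix a vertex -/
def Ell (V : Type) {G : Type} [Group G] [MulAction G V] (N : Subgroup G) : Prop :=
  N ≤ Subgroup.closure {n | n ∈ N ∧ ∃ v : V, n • v = v}

/-- a potential with invariant differences is invariant under a group generated by elements with fixed points -/
theorem pot_inv {A : Type} [Group A] (hX : OnTree G X) {N : Subgroup G} (hN : Ell V N) (l : V → V → A)
    (hl : ∀ n ∈ N, ∀ v w, X.Adj v w → l (n • v) (n • w) = l v w) (h : V → A)
    (hh : ∀ v w, X.Adj v w → h w = h v * l v w) : ∀ n ∈ N, ∀ v, h (n • v) = h v := by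
  have key : ∀ n ∈ N, ∃ a : A, ∀ v, h (n • v) = a * h v := by
    intro n hn
    refine potential_unique hX.tree.1 h (fun v => h (n • v)) ?_
    intro v w hvw
    have h1 := hh v w hvw
    have h2 := hh _ _ (hX.adj n v w hvw)
    simp only [h1, h2, hl n hn v w hvw]
    group
  let S : Subgroup G :=
    { carrier := {n | n ∈ N ∧ ∀ v, h (n • v) = h v}
      one_mem' := ⟨N.one_mem, fun v => by rw [one_smul]⟩
      mul_mem' := by
        rintro a b ⟨ha, ha'⟩ ⟨hb, hb'⟩
        exact ⟨N.mul_mem ha hb, fun v => by rw [mul_smul, ha', hb']⟩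
      inv_mem' := by
        rintro a ⟨ha, ha'⟩
        refine ⟨N.inv_mem ha, fun v => ?_⟩
        have h1 := ha' (a⁻¹ • v)
        rw [smul_inv_smul] at h1
        exact h1.symm }
  have hS : Subgroup.closure {n | n ∈ N ∧ ∃ v : V, n • v = v} ≤ S := by
    rw [Subgroup.closure_le]
    rintro n ⟨hn, v, hv⟩
    refine ⟨hn, ?_⟩
    obtain ⟨a, ha⟩ := key n hn
    have h1 := ha v
    rw [hv] at h1
    have h2 : a = 1 := mul_eq_right.1 h1.symm
    intro w
    rw [ha w, h2, one_mul]
  exact fun n hn => (hS (hN hn)).2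

/-- the group folds itself -/
theorem folds_self (hX : OnTree G X) {N : Subgroup G} (hi : NoInv X N) (hN : Ell V N) : Folds X N N := by
  classical
  let q : V → V → Orb N (V × V) := fun v w => orb N (v, w)
  have hq : ∀ v w, X.Adj v w → q v w ≠ q w v := by
    intro v w hvw h
    obtain ⟨n, hn, h1⟩ := (orb_eq_iff N _ _).1 h
    have h2 : n • w = v := congrArg Prod.fst h1
    have h3 : n • v = w := congrArg Prod.snd h1
    exact hi n hn v w hvw h3 h2
  obtain ⟨h, hh⟩ := exists_potential hX.tree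
    (fun v w => FreeGroup.of (q v w) * (FreeGroup.of (q w v))⁻¹) (fun v w _ => by group)
  have hqn : ∀ n ∈ N, ∀ v w, q (n • v) (n • w) = q v w := fun n hn v w =>
    (orb_eq_iff N _ _).2 ⟨n, hn, rfl⟩
  have hinv := pot_inv hX hN (fun v w => FreeGroup.of (q v w) * (FreeGroup.of (q w v))⁻¹)
    (fun n hn v w _ => by simp only [hqn n hn]) h hh
  intro l hl v hv
  obtain ⟨u, x, u', h1, h2, h3, h4⟩ := fold hX.tree.1 q hq h hh (v := v) (w := l • v)
    (fun e => hv e.symm) (hinv l hl v).symm
  obtain ⟨n, hn, h5⟩ := (orb_eq_iff N _ _).1 h3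
  have h6 : n • x = x := congrArg Prod.fst h5
  have h7 : n • u' = u := congrArg Prod.snd h5
  exact ⟨u, x, u', n⁻¹, N.inv_mem hn, by rw [inv_smul_eq_iff, h6], by rw [inv_smul_eq_iff, h7], h1, h2, h4⟩

/-- an element of `N` which moves `v` moves it by at least two -/
theorem two_le (hX : OnTree G X) {N : Subgroup G} (hi : NoInv X N) (hN : Ell V N) {n : G} (hn : n ∈ N) {v : V}
    (hv : n • v ≠ v) : 2 ≤ X.dist v (n • v) := by
  obtain ⟨u, x, u', m, h1, h2, h3, h4, h5, h6⟩ := folds_self hX hi hN n hn v hv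
  omega

/-- neighbours of a vertex in the same orbit of `N` are in the same orbit of the stabiliser of the vertex in `N` -/
theorem star_orb (hX : OnTree G X) {N : Subgroup G} (hi : NoInv X N) (hN : Ell V N) {x u u' : V} (h1 : X.Adj u x)
    (h2 : X.Adj x u') {n : G} (hn : n ∈ N) (h : n • u = u') : ∃ m ∈ N, m • x = x ∧ m • u = u' := by
  by_cases huu : u = u'
  · exact ⟨1, N.one_mem, one_smul _ _, by rw [one_smul, huu]⟩
  have hd : X.dist u u' ≤ 2 := by
    have := SimpleGraph.dist_le (h1.toWalk.append h2.toWalk)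
    simpa using this
  obtain ⟨a, b, c, m, hm, e1, e2, e3, e4, e5⟩ := folds_self hX hi hN n hn u (by rw [h]; exact fun e => huu e.symm)
  rw [h] at e5
  have ha : X.dist u a = 0 := by omega
  have hc : X.dist c u' = 0 := by omega
  have ha' : u = a := (hX.tree.1.dist_eq_zero_iff).1 ha
  have hc' : c = u' := (hX.tree.1.dist_eq_zero_iff).1 hc
  subst ha' hc'
  have hbx : b = x := by
    by_contra hne
    -- two different paths of length two
    have hac := hX.tree.existsUnique_path u c
    have p1 : (SimpleGraph.Walk.cons h1 h2.toWalk).IsPath := by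
      rw [SimpleGraph.Walk.cons_isPath_iff]
      refine ⟨SimpleGraph.Walk.IsPath.of_adj h2, ?_⟩
      simp only [SimpleGraph.Adj.toWalk, SimpleGraph.Walk.support_cons, SimpleGraph.Walk.support_nil, List.mem_cons,
        List.not_mem_nil, or_false, not_or]
      exact ⟨h1.ne, huu⟩
    have p2 : (SimpleGraph.Walk.cons e3 e4.toWalk).IsPath := by
      rw [SimpleGraph.Walk.cons_isPath_iff]
      refine ⟨SimpleGraph.Walk.IsPath.of_adj e4, ?_⟩
      simp only [SimpleGraph.Adj.toWalk, SimpleGraph.Walk.support_cons, SimpleGraph.Walk.support_nil, List.mem_cons,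
        List.not_mem_nil, or_false, not_or]
      exact ⟨e3.ne, huu⟩
    have h3 := hac.unique p1 p2
    have h4 := congrArg SimpleGraph.Walk.support h3
    simp only [SimpleGraph.Adj.toWalk, SimpleGraph.Walk.support_cons, SimpleGraph.Walk.support_nil, List.cons.injEq,
      true_and, and_true] at h4
    exact hne h4.symm
  subst hbx
  exact ⟨m, hm, e1, e2⟩

/-- the quotient graph -/
def qg (X : SimpleGraph V) (N : Subgroup G) : SimpleGraph (Orb N V) where
  Adj a b := a ≠ b ∧ ∃ v w, X.Adj v w ∧ orb N v = a ∧ orb N w = b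
  symm := ⟨fun a b h => ⟨h.1.symm, by
    obtain ⟨v, w, h1, h2, h3⟩ := h.2
    exact ⟨w, v, h1.symm, h3, h2⟩⟩⟩
  loopless := ⟨fun a h => h.1 rfl⟩

theorem qg_adj {N : Subgroup G} {a b : Orb N V} :
    (qg X N).Adj a b ↔ a ≠ b ∧ ∃ v w, X.Adj v w ∧ orb N v = a ∧ orb N w = b := Iff.rfl

theorem orb_ne (hX : OnTree G X) {N : Subgroup G} (hi : NoInv X N) (hN : Ell V N) {v w : V} (h : X.Adj v w) :
    orb N v ≠ orb N w := by
  intro e
  obtain ⟨n, hn, h1⟩ := (orb_eq_iff N _ _).1 e
  have h2 := two_le hX hi hN hn (v := w) (by rw [h1]; exact h.ne)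
  rw [h1, SimpleGraph.dist_eq_one_iff_adj.2 h.symm] at h2
  omega

theorem adj_orb (hX : OnTree G X) {N : Subgroup G} (hi : NoInv X N) (hN : Ell V N) {v w : V} (h : X.Adj v w) :
    (qg X N).Adj (orb N v) (orb N w) := ⟨orb_ne hX hi hN h, v, w, h, rfl, rfl⟩

/-- lifting of edges with a given first vertex -/
theorem lift_adj (hX : OnTree G X) {N : Subgroup G} {v : V} {b : Orb N V} (h : (qg X N).Adj (orb N v) b) :
    ∃ w, X.Adj v w ∧ orb N w = b := by
  obtain ⟨-, x, y, h1, h2, h3⟩ := h
  obtain ⟨n, hn, h4⟩ := (orb_eq_iff N _ _).1 h2.symm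
  refine ⟨n • y, ?_, ?_⟩
  · rw [← h4]
    exact hX.adj n x y h1
  · rw [← h3]
    exact (orb_eq_iff N _ _).2 ⟨n, hn, rfl⟩

theorem qg_connected (hX : OnTree G X) {N : Subgroup G} (hi : NoInv X N) (hN : Ell V N) : (qg X N).Connected := by
  have hw : ∀ v w : V, X.Reachable v w → (qg X N).Reachable (orb N v) (orb N w) := by
    rintro v w ⟨p⟩
    induction p with
    | nil => exact SimpleGraph.Reachable.refl _
    | cons e p ih => exact (adj_orb hX hi hN e).reachable.trans ih
  obtain ⟨r⟩ := hX.tree.1.nonempty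
  have : Nonempty (Orb N V) := ⟨orb N r⟩
  refine ⟨?_⟩
  intro a b
  obtain ⟨v, rfl⟩ := orb_surj N a
  obtain ⟨w, rfl⟩ := orb_surj N b
  exact hw v w (hX.tree.1 v w)

theorem qg_tree (hX : OnTree G X) {N : Subgroup G} (hi : NoInv X N) (hN : Ell V N) : (qg X N).IsTree := by
  classical
  refine ⟨qg_connected hX hi hN, ?_⟩
  rw [SimpleGraph.isAcyclic_iff_forall_adj_isBridge]
  intro a b hab
  obtain ⟨v0, rfl⟩ := orb_surj N a
  obtain ⟨w0, h0, rfl⟩ := lift_adj hX hab
  -- the signed indicator of the edges over the given one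
  let P : V → V → Prop := fun v w => orb N (v, w) = orb N (v0, w0)
  have hP : ∀ n ∈ N, ∀ v w, P (n • v) (n • w) ↔ P v w := by
    intro n hn v w
    have : orb N (n • v, n • w) = orb N (v, w) := (orb_eq_iff N _ _).2 ⟨n, hn, rfl⟩
    show orb N (n • v, n • w) = _ ↔ _
    rw [this]
  have hPP : ∀ v w, P v w → ¬ P w v := by
    intro v w h1 h2
    obtain ⟨n, hn, h3⟩ := (orb_eq_iff N _ _).1 (h1.trans h2.symm)
    have e1 : n • w = v := congrArg Prod.fst h3
    have e2 : n • v = w := congrArg Prod.snd h3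
    have hadj : X.Adj v w := by
      obtain ⟨m, -, h4⟩ := (orb_eq_iff N _ _).1 h1
      have e3 : m • v0 = v := congrArg Prod.fst h4
      have e4 : m • w0 = w := congrArg Prod.snd h4
      rw [← e3, ← e4]
      exact hX.adj m v0 w0 h0
    exact hi n hn v w hadj e2 e1
  let l : V → V → Multiplicative ℤ := fun v w =>
    if P v w then Multiplicative.ofAdd 1 else if P w v then Multiplicative.ofAdd (-1) else 1
  have hl1 : ∀ v w, X.Adj v w → l v w * l w v = 1 := by
    intro v w _
    by_cases h1 : P v w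
    · have h2 := hPP v w h1
      simp only [l, if_pos h1, if_neg h2]
      rw [← ofAdd_add]
      rfl
    · by_cases h2 : P w v
      · simp only [l, if_neg h1, if_pos h2]
        rw [← ofAdd_add]
        rfl
      · simp only [l, if_neg h1, if_neg h2, mul_one]
  obtain ⟨f, hf⟩ := exists_potential hX.tree l hl1
  have hfn := pot_inv hX hN l (fun n hn v w _ => by simp only [l, hP n hn]) f hf
  -- the induced function on the quotient
  have hfo : ∀ v w, orb N v = orb N w → f v = f w := by
    intro v w h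
    obtain ⟨n, hn, h1⟩ := (orb_eq_iff N _ _).1 h
    rw [← h1, hfn n hn]
  rw [SimpleGraph.isBridge_iff]
  intro hreach
  have key : ∀ a b : Orb N V, ((qg X N).deleteEdges {s(orb N v0, orb N w0)}).Reachable a b →
      ∀ v w, orb N v = a → orb N w = b → f v = f w := by
    rintro a b ⟨p⟩
    induction p with
    | nil =>
      intro v w h1 h2
      exact hfo v w (h1.trans h2.symm)
    | @cons a c b e p ih =>
      intro v w h1 h2
      rw [SimpleGraph.deleteEdges_adj] at e
      obtain ⟨e1, e2⟩ := e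
      rw [← h1] at e1
      obtain ⟨y, h3, h4⟩ := lift_adj hX e1
      have h5 := ih y w h4 h2
      rw [← h5]
      have h6 := hf v y h3
      have h7 : l v y = 1 := by
        have n1 : ¬ P v y := by
          intro hp
          apply e2
          obtain ⟨m, hm, h8⟩ := (orb_eq_iff N _ _).1 hp
          have e3 : m • v0 = v := congrArg Prod.fst h8
          have e4 : m • w0 = y := congrArg Prod.snd h8
          have e5 : orb N v = orb N v0 := (orb_eq_iff N _ _).2 ⟨m, hm, e3⟩
          have e6 : orb N y = orb N w0 := (orb_eq_iff N _ _).2 ⟨m, hm, e4⟩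
          rw [← h1, ← h4, e5, e6]
          exact Set.mem_singleton _
        have n2 : ¬ P y v := by
          intro hp
          apply e2
          obtain ⟨m, hm, h8⟩ := (orb_eq_iff N _ _).1 hp
          have e3 : m • v0 = y := congrArg Prod.fst h8
          have e4 : m • w0 = v := congrArg Prod.snd h8
          have e5 : orb N y = orb N v0 := (orb_eq_iff N _ _).2 ⟨m, hm, e3⟩
          have e6 : orb N v = orb N w0 := (orb_eq_iff N _ _).2 ⟨m, hm, e4⟩
          rw [← h1, ← h4, e5, e6, Sym2.eq_swap]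
          exact Set.mem_singleton _
        simp only [l, if_neg n1, if_neg n2]
      rw [h6, h7, mul_one]
  have h1 := key _ _ hreach v0 w0 rfl rfl
  have h2 := hf v0 w0 h0
  have h3 : l v0 w0 = Multiplicative.ofAdd 1 := by
    have : P v0 w0 := rfl
    simp only [l, if_pos this]
  rw [h3, ← h1] at h2
  have h4 := mul_eq_left.1 h2.symm
  have h5 := congrArg Multiplicative.toAdd h4
  simp at h5

section action

variable (N : Subgroup G) [hNn : N.Normal]

/-- the quotient group acts on the quotient graph -/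
scoped instance instQ : MulAction (G ⧸ N) (Orb N V) :=
  MulAction.compHom (Orb N V) (QuotientGroup.lift N (MulAction.toPermHom G (Orb N V)) (by
    intro n hn
    ext a
    obtain ⟨v, rfl⟩ := orb_surj N a
    show n • orb N v = orb N v
    rw [smul_orb]
    exact (orb_eq_iff N _ _).2 ⟨n, hn, rfl⟩))

theorem mk_smul_orb (g : G) (v : V) : ((g : G ⧸ N) • orb N v : Orb N V) = orb N (g • v) := rfl

theorem qg_onTree (hX : OnTree G X) (hi : NoInv X N) (hN : Ell V N) : OnTree (G ⧸ N) (qg X N) := by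
  refine ⟨qg_tree hX hi hN, ?_⟩
  intro g a b hab
  obtain ⟨g, rfl⟩ := QuotientGroup.mk_surjective g
  obtain ⟨v, rfl⟩ := orb_surj N a
  obtain ⟨w, h1, rfl⟩ := lift_adj hX hab
  rw [mk_smul_orb, mk_smul_orb]
  exact adj_orb hX hi hN (hX.adj g v w h1)

/-- stabilisers of vertices -/
theorem mk_fix (g : G) (v : V) : ((g : G ⧸ N) • orb N v : Orb N V) = orb N v ↔ ∃ n ∈ N, (n * g) • v = v := by
  rw [mk_smul_orb]
  constructor
  · intro h
    obtain ⟨n, hn, h1⟩ := (orb_eq_iff N _ _).1 h.symm
    exact ⟨n, hn, by rw [mul_smul, h1]⟩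
  · rintro ⟨n, hn, h⟩
    rw [mul_smul] at h
    exact ((orb_eq_iff N _ _).2 ⟨n, hn, h⟩).symm

/-- stabilisers of edges -/
theorem mk_fix_edge (hX : OnTree G X) (hi : NoInv X N) (hN : Ell V N) (g : G) {v w : V} (hvw : X.Adj v w) :
    (((g : G ⧸ N) • orb N v : Orb N V) = orb N v ∧ ((g : G ⧸ N) • orb N w : Orb N V) = orb N w) ↔
      ∃ n ∈ N, (n * g) • v = v ∧ (n * g) • w = w := by
  constructor
  · rintro ⟨h1, h2⟩
    obtain ⟨n, hn, h3⟩ := (mk_fix N g v).1 h1
    obtain ⟨m, hm, h4⟩ := (mk_fix N g w).1 h2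
    -- `n g` fixes `v` and maps `w` to a neighbour in the orbit of `w`
    have h5 : X.Adj ((n * g) • w) v := by
      have := hX.adj (n * g) w v hvw.symm
      rwa [h3] at this
    have h6 : (m * n⁻¹) • ((n * g) • w) = w := by
      rw [smul_smul, mul_assoc, inv_mul_cancel_left, h4]
    obtain ⟨k, hk, h7, h8⟩ := star_orb hX hi hN h5 hvw (N.mul_mem hm (N.inv_mem hn)) h6
    refine ⟨k * n, N.mul_mem hk hn, ?_, ?_⟩
    · rw [mul_assoc, mul_smul, h3, h7]
    · rw [mul_assoc, mul_smul, h8]
  · rintro ⟨n, hn, h1, h2⟩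
    exact ⟨(mk_fix N g v).2 ⟨n, hn, h1⟩, (mk_fix N g w).2 ⟨n, hn, h2⟩⟩

/-- no inversions in the quotient -/
theorem qg_noInv (hX : OnTree G X) (hi : NoInv X (⊤ : Subgroup G)) (hN : Ell V N) :
    NoInv (qg X N) (⊤ : Subgroup (G ⧸ N)) := by
  have hi' : NoInv X N := fun n _ => hi n (Subgroup.mem_top n)
  intro g _ a b hab h1 h2
  obtain ⟨g, rfl⟩ := QuotientGroup.mk_surjective g
  obtain ⟨v, rfl⟩ := orb_surj N a
  obtain ⟨w, h3, rfl⟩ := lift_adj hX hab
  rw [mk_smul_orb] at h1 h2
  obtain ⟨n, hn, h4⟩ := (orb_eq_iff N _ _).1 h1.symm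
  -- `n g v = w`
  obtain ⟨m, hm, h5⟩ := (orb_eq_iff N _ _).1 h2.symm
  have h6 : (n * g) • v = w := by rw [mul_smul, h4]
  have h7 : (m * g) • w = v := by rw [mul_smul, h5]
  have h8 : X.Adj ((n * g) • w) w := by
    have := hX.adj (n * g) w v h3.symm
    rwa [h6] at this
  have h9 : (m * n⁻¹) • ((n * g) • w) = v := by
    rw [smul_smul, mul_assoc, inv_mul_cancel_left, h7]
  obtain ⟨k, hk, e1, e2⟩ := star_orb hX hi' hN h8 h3.symm (N.mul_mem hm (N.inv_mem hn)) h9
  refine hi (k * (n * g)) (Subgroup.mem_top _) v w h3 ?_ ?_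
  · rw [mul_smul, h6, e1]
  · rw [mul_smul, e2]

end action

end Pool.Agent.H64.QT
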